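import Pool.Agent.V7H48.JC.Nc

/-!
# Jordan pairs of spaces of matrices
-/

set_option autoImplicit false
set_option linter.unusedSectionVars false

namespace Pool.Agent.V7H48.JC

open Matrix Module MvPolynomial

variable {F : Type*} [Field F] {a b n : ℕ}

/-- The matrix `∑ i, x_i A_i` of linear forms. -/
noncomputable def pencil (A : Fin n → Matrix (Fin a) (Fin b) F) :
    Matrix (Fin a) (Fin b) (MvPolynomial (Fin n) F) :=
  ∑ i, (X i : MvPolynomial (Fin n) F) • (A i).map C

/-- The space spanned by the matrices `A_i`. -/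
def spn (A : Fin n → Matrix (Fin a) (Fin b) F) : Submodule F (Matrix (Fin a) (Fin b) F) :=
  Submodule.span F (Set.range A)

theorem pencil_map_eval (A : Fin n → Matrix (Fin a) (Fin b) F) (c : Fin n → F) :
    (pencil A).map (eval c) = ∑ i, c i • A i := by
  ext i j
  simp [pencil, Matrix.sum_apply, Matrix.map_apply]

theorem rank_le_symRank (A : Fin n → Matrix (Fin a) (Fin b) F) {x : Matrix (Fin a) (Fin b) F}
    (hx : x ∈ spn A) : x.rank ≤ symRank (pencil A) := by
  obtain ⟨c, rfl⟩ := (Submodule.mem_span_range_iff_exists_fun F).1 hx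
  rw [← pencil_map_eval]
  exact rank_map_le _ _ _ (IsFractionRing.injective _ _)

theorem coeffMat_pencil (A : Fin n → Matrix (Fin a) (Fin b) F) (m : Fin n →₀ ℕ) :
    coeffMat (pencil A) m = ∑ i, (if Finsupp.single i 1 = m then (1 : F) else 0) • A i := by
  ext i j
  simp only [coeffMat, pencil, Matrix.map_apply, Matrix.sum_apply, Matrix.smul_apply,
    smul_eq_mul, coeff_sum]
  refine Finset.sum_congr rfl fun k _ => ?_
  rw [mul_comm, coeff_C_mul, MvPolynomial.coeff_X, mul_comm]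

theorem coeffMat_pencil_mem (A : Fin n → Matrix (Fin a) (Fin b) F) (m : Fin n →₀ ℕ) :
    coeffMat (pencil A) m ∈ spn A := by
  rw [coeffMat_pencil]
  exact Submodule.sum_mem _ fun i _ => Submodule.smul_mem _ _ (Submodule.subset_span ⟨i, rfl⟩)

theorem coeffMat_pencil_single (A : Fin n → Matrix (Fin a) (Fin b) F) (i : Fin n) :
    coeffMat (pencil A) (Finsupp.single i 1) = A i := by
  rw [coeffMat_pencil]
  rw [Finset.sum_eq_single i]
  · simp
  · intro j _ hj
    rw [if_neg, zero_smul]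
    intro h
    exact hj (Finsupp.single_left_injective one_ne_zero h)
  · simp

theorem spn_le_span_coeffMat (A : Fin n → Matrix (Fin a) (Fin b) F) :
    spn A ≤ Submodule.span F (Set.range (coeffMat (pencil A))) := by
  refine Submodule.span_le.2 ?_
  rintro _ ⟨i, rfl⟩
  exact Submodule.subset_span ⟨_, coeffMat_pencil_single A i⟩

/-- `(𝒜, ℬ)` is a Jordan pair of spaces of matrices: `x y x ∈ 𝒜` and `y x y ∈ ℬ` for `x ∈ 𝒜`
and `y ∈ ℬ`. -/
def JordanPair (𝒜 : Submodule F (Matrix (Fin a) (Fin b) F))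
    (ℬ : Submodule F (Matrix (Fin b) (Fin a) F)) : Prop :=
  ∀ x ∈ 𝒜, ∀ y ∈ ℬ, x * y * x ∈ 𝒜 ∧ y * x * y ∈ ℬ

theorem JordanPair.closed {𝒜 : Submodule F (Matrix (Fin a) (Fin b) F)}
    {ℬ : Submodule F (Matrix (Fin b) (Fin a) F)} (h : JordanPair 𝒜 ℬ)
    {f : Matrix (Fin b) (Fin a) F} (hf : f ∈ ℬ) : JClosed f 𝒜 := by
  intro x hx
  refine ⟨(h x hx f hf).1, fun y hy => ?_⟩
  have h1 := (h y hy f hf).2
  have h2 := (h x hx _ h1).1
  have h3 : x * f * y * f * x = x * (f * y * f) * x := by simp only [Matrix.mul_assoc]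
  rw [h3]
  exact h2

/-- the corner of an element of a Jordan pair -/
theorem JordanPair.corner {𝒜 : Submodule F (Matrix (Fin a) (Fin b) F)}
    {ℬ : Submodule F (Matrix (Fin b) (Fin a) F)} (h : JordanPair 𝒜 ℬ)
    {e x : Matrix (Fin a) (Fin b) F} {f : Matrix (Fin b) (Fin a) F} (he : e ∈ 𝒜) (hf : f ∈ ℬ)
    (hx : x ∈ 𝒜) : (1 - e * f) * x * (1 - f * e) ∈ 𝒜 := by
  have h1 := (h.closed hf).two he hx
  have h2 := (h e he _ (h x hx f hf).2).1
  have h3 : (1 - e * f) * x * (1 - f * e) =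
      x - (e * f * x + x * f * e) + e * (f * x * f) * e := by
    simp only [Matrix.sub_mul, Matrix.mul_sub, Matrix.one_mul, Matrix.mul_one, Matrix.mul_assoc]
    abel
  rw [h3]
  exact 𝒜.add_mem (𝒜.sub_mem hx h1) h2

/-- ranks add up -/
theorem rank_add_corner {e z : Matrix (Fin a) (Fin b) F} {f : Matrix (Fin b) (Fin a) F}
    (hef : e * f * e = e) (hz : (1 - e * f) * z * (1 - f * e) = z) :
    e.rank + z.rank ≤ (e + z).rank := by
  have hA : (1 - e * f) * e = 0 := by rw [Matrix.sub_mul, Matrix.one_mul, hef, sub_self]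
  have hB : (1 - e * f) * (1 - e * f) = 1 - e * f := by
    rw [Matrix.mul_sub, Matrix.mul_one, ← Matrix.mul_assoc, hA, Matrix.zero_mul, sub_zero]
  have hC : e * (1 - f * e) = 0 := by
    rw [Matrix.mul_sub, Matrix.mul_one, ← Matrix.mul_assoc, hef, sub_self]
  have hD : (1 - f * e) * (1 - f * e) = 1 - f * e := by
    rw [Matrix.sub_mul (1 : Matrix (Fin b) (Fin b) F), Matrix.one_mul, Matrix.mul_assoc, hC,
      Matrix.mul_zero, sub_zero]
  have hz1 : (1 - e * f) * z = z := by
    conv_rhs => rw [← hz]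
    conv_lhs => rw [← hz]
    rw [← Matrix.mul_assoc, ← Matrix.mul_assoc, hB]
  have hz2 : z * (1 - f * e) = z := by
    conv_rhs => rw [← hz]
    conv_lhs => rw [← hz]
    rw [Matrix.mul_assoc _ (1 - f * e), hD]
  have hker : LinearMap.ker (e + z).mulVecLin ≤
      LinearMap.ker e.mulVecLin ⊓ LinearMap.ker z.mulVecLin := by
    intro v hv
    rw [LinearMap.mem_ker, Matrix.mulVecLin_apply] at hv
    have h1 : z *ᵥ v = 0 := by
      have h2 := congrArg (fun w => (1 - e * f) *ᵥ w) hv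
      simp only [Matrix.mulVec_mulVec, Matrix.mul_add, hA, hz1, zero_add,
        Matrix.mulVec_zero] at h2
      exact h2
    refine ⟨?_, h1⟩
    rw [Matrix.add_mulVec, h1, add_zero] at hv
    exact hv
  have hsup : LinearMap.ker e.mulVecLin ⊔ LinearMap.ker z.mulVecLin = ⊤ := by
    rw [eq_top_iff]
    intro v _
    have h1 : v = (1 - f * e) *ᵥ v + (f * e) *ᵥ v := by
      rw [← Matrix.add_mulVec]; simp
    rw [h1]
    refine Submodule.add_mem_sup ?_ ?_
    · rw [LinearMap.mem_ker, Matrix.mulVecLin_apply, Matrix.mulVec_mulVec, hC,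
        Matrix.zero_mulVec]
    · rw [LinearMap.mem_ker, Matrix.mulVecLin_apply, Matrix.mulVec_mulVec, ← hz2,
        Matrix.mul_assoc]
      have : (1 - f * e) * (f * e) = 0 := by
        have h3 : f * e = 1 - (1 - f * e) := by abel
        conv_lhs => rw [h3]
        rw [Matrix.mul_sub, Matrix.mul_one]
        have h4 : 1 - (1 - (1 - f * e)) = 1 - f * e := by abel
        rw [h4, hD, sub_self]
      rw [this, Matrix.mul_zero, Matrix.zero_mulVec]
  have h1 := Submodule.finrank_sup_add_finrank_inf_eq (LinearMap.ker e.mulVecLin)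
    (LinearMap.ker z.mulVecLin)
  rw [hsup, finrank_top, Module.finrank_fin_fun] at h1
  have h2 := Submodule.finrank_mono hker
  have h3 := LinearMap.finrank_range_add_finrank_ker e.mulVecLin
  have h4 := LinearMap.finrank_range_add_finrank_ker z.mulVecLin
  have h5 := LinearMap.finrank_range_add_finrank_ker (e + z).mulVecLin
  rw [Module.finrank_fin_fun] at h3 h4 h5
  have h6 : e.rank = finrank F (LinearMap.range e.mulVecLin) := rfl
  have h7 : z.rank = finrank F (LinearMap.range z.mulVecLin) := rfl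
  have h8 : (e + z).rank = finrank F (LinearMap.range (e + z).mulVecLin) := rfl
  omega

/-- `x` maps the kernel of `e` into the image of `e` -/
def FirstOrder (e x : Matrix (Fin a) (Fin b) F) : Prop :=
  ∀ v, e *ᵥ v = 0 → ∃ w, x *ᵥ v = e *ᵥ w

theorem corner_eq_zero {e x : Matrix (Fin a) (Fin b) F} {f : Matrix (Fin b) (Fin a) F}
    (hef : e * f * e = e) : (1 - e * f) * x * (1 - f * e) = 0 ↔ FirstOrder e x := by
  have hC : e * (1 - f * e) = 0 := by
    rw [Matrix.mul_sub, Matrix.mul_one, ← Matrix.mul_assoc, hef, sub_self]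
  constructor
  · intro h v hv
    have h1 := congrArg (fun X : Matrix (Fin a) (Fin b) F => X *ᵥ v) h
    simp only [← Matrix.mulVec_mulVec, Matrix.sub_mulVec, Matrix.one_mulVec, hv,
      Matrix.mulVec_zero, sub_zero, Matrix.zero_mulVec] at h1
    exact ⟨_, sub_eq_zero.1 h1⟩
  · intro h
    refine eq_of_mulVec fun v => ?_
    rw [← Matrix.mulVec_mulVec, ← Matrix.mulVec_mulVec]
    obtain ⟨w, hw⟩ := h ((1 - f * e) *ᵥ v) (by
      rw [Matrix.mulVec_mulVec, hC, Matrix.zero_mulVec])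
    rw [hw, Matrix.mulVec_mulVec, Matrix.sub_mul, Matrix.one_mul, hef, sub_self,
      Matrix.zero_mulVec, Matrix.zero_mulVec]

theorem FirstOrder.of_span {e : Matrix (Fin a) (Fin b) F} {A : Fin n → Matrix (Fin a) (Fin b) F}
    (h : ∀ i, FirstOrder e (A i)) {x : Matrix (Fin a) (Fin b) F} (hx : x ∈ spn A) :
    FirstOrder e x := by
  intro v hv
  unfold spn at hx
  induction hx using Submodule.span_induction with
  | mem x hx =>
    obtain ⟨i, rfl⟩ := hx
    exact h i v hv
  | zero => exact ⟨0, by simp⟩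
  | add x y _ _ hx hy =>
    obtain ⟨w, hw⟩ := hx
    obtain ⟨u, hu⟩ := hy
    exact ⟨w + u, by rw [Matrix.add_mulVec, Matrix.mulVec_add, hw, hu]⟩
  | smul c x _ hx =>
    obtain ⟨w, hw⟩ := hx
    exact ⟨c • w, by rw [Matrix.smul_mulVec, Matrix.mulVec_smul, hw]⟩

section pair

variable {A : Fin n → Matrix (Fin a) (Fin b) F} {ℬ : Submodule F (Matrix (Fin b) (Fin a) F)}

/-- first order maximality gives a Jordan certificate -/
theorem certifies_of_firstOrder (h : JordanPair (spn A) ℬ) {e : Matrix (Fin a) (Fin b) F}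
    {f : Matrix (Fin b) (Fin a) F} (hf : f ∈ ℬ) (hef : e * f * e = e)
    (h1 : ∀ i, FirstOrder e (A i)) : Certifies (pencil A) e.rank 1 1 e f := by
  refine ⟨fun x hx => ?_, by simp⟩
  have hx' : x ∈ spn A := by
    refine jordanHull_le (h.closed hf) ?_ hx
    rintro _ ⟨m, rfl⟩
    simp only [Matrix.one_mul, Matrix.mul_one]
    exact coeffMat_pencil_mem A m
  exact (corner_eq_zero hef).2 (FirstOrder.of_span h1 hx')

theorem firstOrder_of_max (h : JordanPair (spn A) ℬ) {e : Matrix (Fin a) (Fin b) F}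
    {f : Matrix (Fin b) (Fin a) F} (he : e ∈ spn A) (hf : f ∈ ℬ) (hef : e * f * e = e)
    (hmax : ∀ x ∈ spn A, x.rank ≤ e.rank) (i : Fin n) : FirstOrder e (A i) := by
  rw [← corner_eq_zero hef]
  set z := (1 - e * f) * A i * (1 - f * e) with hz
  have hzA : z ∈ spn A := h.corner he hf (Submodule.subset_span ⟨i, rfl⟩)
  have hB : (1 - e * f) * (1 - e * f) = 1 - e * f := by
    rw [Matrix.mul_sub, Matrix.mul_one, ← Matrix.mul_assoc, Matrix.sub_mul, Matrix.one_mul, hef,
      sub_self, Matrix.zero_mul, sub_zero]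
  have hD : (1 - f * e) * (1 - f * e) = 1 - f * e := by
    rw [Matrix.sub_mul (1 : Matrix (Fin b) (Fin b) F), Matrix.one_mul, Matrix.mul_assoc,
      Matrix.mul_sub, Matrix.mul_one, ← Matrix.mul_assoc, hef, sub_self, Matrix.mul_zero, sub_zero]
  have h1 : (1 - e * f) * z * (1 - f * e) = z := by
    rw [hz]
    calc (1 - e * f) * ((1 - e * f) * A i * (1 - f * e)) * (1 - f * e)
        = ((1 - e * f) * (1 - e * f)) * A i * ((1 - f * e) * (1 - f * e)) := by
          simp only [Matrix.mul_assoc]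
      _ = _ := by rw [hB, hD]
  have h2 := rank_add_corner hef h1
  have h3 := hmax _ ((spn A).add_mem he hzA)
  have h4 : z.rank = 0 := by omega
  have h5 : z.mulVecLin = 0 := by
    rw [← LinearMap.range_eq_bot]
    exact Submodule.finrank_eq_zero.1 h4
  refine eq_of_mulVec fun v => ?_
  have := congrArg (fun g : (Fin b → F) →ₗ[F] (Fin a → F) => g v) h5
  simpa using this

/-- **Local maxima are global.** -/
theorem tfae_max (h : JordanPair (spn A) ℬ) {e : Matrix (Fin a) (Fin b) F}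
    {f : Matrix (Fin b) (Fin a) F} (he : e ∈ spn A) (hf : f ∈ ℬ) (hef : e * f * e = e) :
    [(∀ i, FirstOrder e (A i)), (∀ x ∈ spn A, x.rank ≤ e.rank), symRank (pencil A) = e.rank,
      Certifies (pencil A) e.rank 1 1 e f].TFAE := by
  tfae_have 1 → 4 := fun h1 => certifies_of_firstOrder h hf hef h1
  tfae_have 4 → 3 := fun h1 => le_antisymm h1.sound (rank_le_symRank A he)
  tfae_have 3 → 2 := fun h1 x hx => h1 ▸ rank_le_symRank A hx
  tfae_have 2 → 1 := fun h1 => firstOrder_of_max h he hf hef h1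
  tfae_finish

theorem exists_max (A : Fin n → Matrix (Fin a) (Fin b) F) :
    ∃ e ∈ spn A, ∀ x ∈ spn A, x.rank ≤ e.rank := by
  have h1 : ({k | ∃ x ∈ spn A, x.rank = k} : Set ℕ).Nonempty :=
    ⟨_, 0, (spn A).zero_mem, rfl⟩
  have h2 : BddAbove ({k | ∃ x ∈ spn A, x.rank = k} : Set ℕ) := by
    refine ⟨a, ?_⟩
    rintro _ ⟨x, -, rfl⟩
    exact Matrix.rank_le_height x
  obtain ⟨e, he, hr⟩ := Nat.sSup_mem h1 h2
  exact ⟨e, he, fun x hx => hr ▸ le_csSup h2 ⟨x, hx, rfl⟩⟩

/-- Regular Jordan pairs: the symbolic rank is attained. -/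
theorem regular_pair (h : JordanPair (spn A) ℬ)
    (hreg : ∀ x ∈ spn A, ∃ y ∈ ℬ, x * y * x = x) :
    (∃ e ∈ spn A, e.rank = symRank (pencil A)) ∧
    (∀ e ∈ spn A, e.rank = symRank (pencil A) ↔ ∀ i, FirstOrder e (A i)) ∧
    (∀ r, symRank (pencil A) ≤ r ↔ ∃ P Q e f, Certifies (pencil A) r P Q e f) := by
  obtain ⟨e, he, hmax⟩ := exists_max A
  obtain ⟨f, hf, hef⟩ := hreg e he
  have h1 := (tfae_max h he hf hef).out 1 2
  have h2 : symRank (pencil A) = e.rank := h1.1 hmax
  refine ⟨⟨e, he, h2.symm⟩, fun x hx => ?_, fun r => ⟨fun hr => ?_, ?_⟩⟩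
  · obtain ⟨y, hy, hxy⟩ := hreg x hx
    have h3 := (tfae_max h hx hy hxy).out 0 2
    rw [h3]
    exact eq_comm
  · have h4 := ((tfae_max h he hf hef).out 1 3).1 hmax
    exact ⟨1, 1, e, f, h4.1, h4.2.trans (h2 ▸ hr)⟩
  · rintro ⟨P, Q, e, f, hc⟩
    exact hc.sound

end pair

end Pool.Agent.V7H48.JC
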