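import Pool.Agent.V7H48.JC.Nc
import Pool.Agent.V7H48.JC.Pair

/-!
# The generic alternating matrix: Jordan certificates beat the noncommutative rank
-/

set_option autoImplicit false
set_option linter.unusedSectionVars false

namespace Pool.Agent.V7H48.JC

open Matrix Module MvPolynomial

/-- The generic alternating matrix of order `N`. -/
noncomputable def genAlt (F : Type*) [Field F] (N : ℕ) :
    Matrix (Fin N) (Fin N) (MvPolynomial (Fin N × Fin N) F) :=
  fun i j => if i < j then X (i, j) else if j < i then -X (j, i) else 0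

variable {F : Type*} [Field F] {N : ℕ}

/-- The space of alternating matrices. -/
def altSpace (F : Type*) [Field F] (N : ℕ) : Submodule F (Matrix (Fin N) (Fin N) F) where
  carrier := {x | ∀ v : Fin N → F, v ⬝ᵥ (x *ᵥ v) = 0}
  zero_mem' := fun v => by simp
  add_mem' := fun {x y} hx hy v => by
    rw [Matrix.add_mulVec, dotProduct_add, hx v, hy v, add_zero]
  smul_mem' := fun c x hx v => by
    rw [Matrix.smul_mulVec, dotProduct_smul, hx v, smul_zero]

theorem mem_altSpace {x : Matrix (Fin N) (Fin N) F} :
    x ∈ altSpace F N ↔ ∀ v : Fin N → F, v ⬝ᵥ (x *ᵥ v) = 0 := Iff.rfl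

theorem mem_altSpace_of {x : Matrix (Fin N) (Fin N) F} (h0 : ∀ i, x i i = 0)
    (h1 : ∀ i j, x i j = -x j i) : x ∈ altSpace F N := by
  intro v
  have h2 : v ⬝ᵥ (x *ᵥ v) = ∑ p : Fin N × Fin N, v p.1 * (x p.1 p.2 * v p.2) := by
    rw [Fintype.sum_prod_type]
    simp only [dotProduct, Matrix.mulVec, Finset.mul_sum]
  rw [h2]
  refine Finset.sum_involution (fun p _ => p.swap) ?_ ?_ (fun _ _ => Finset.mem_univ _)
    (fun _ _ => Prod.swap_swap _)
  · rintro ⟨i, j⟩ -
    simp only [Prod.swap_prod_mk]
    rw [h1 i j]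
    ring
  · rintro ⟨i, j⟩ - h hij
    simp only [Prod.swap_prod_mk, Prod.mk.injEq] at hij
    obtain ⟨rfl, -⟩ := hij
    apply h
    simp [h0]

theorem altSpace_mulVec {x : Matrix (Fin N) (Fin N) F} (hx : x ∈ altSpace F N)
    (v : Fin N → F) : v ᵥ* x = -(x *ᵥ v) := by
  have h : ∀ w : Fin N → F, (v ᵥ* x + x *ᵥ v) ⬝ᵥ w = 0 := by
    intro w
    have h1 := hx (v + w)
    rw [Matrix.mulVec_add, dotProduct_add, add_dotProduct, add_dotProduct, hx v, hx w, zero_add,
      add_zero] at h1
    rw [add_dotProduct, ← Matrix.dotProduct_mulVec, dotProduct_comm (x *ᵥ v) w, add_comm]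
    exact h1
  have h2 : v ᵥ* x + x *ᵥ v = 0 := dotProduct_eq_zero _ h
  exact eq_neg_of_add_eq_zero_left h2

theorem altSpace_closed {f : Matrix (Fin N) (Fin N) F} (hf : f ∈ altSpace F N) :
    JClosed f (altSpace F N) := by
  intro x hx
  refine ⟨fun v => ?_, fun y hy v => ?_⟩
  · have h1 : v ⬝ᵥ ((x * f * x) *ᵥ v) = (v ᵥ* x) ⬝ᵥ (f *ᵥ (x *ᵥ v)) := by
      rw [← Matrix.mulVec_mulVec, ← Matrix.mulVec_mulVec, Matrix.dotProduct_mulVec]
    rw [h1, altSpace_mulVec hx, neg_dotProduct, hf, neg_zero]
  · have h1 : v ⬝ᵥ ((x * f * y * f * x) *ᵥ v) =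
        ((v ᵥ* x) ᵥ* f) ⬝ᵥ (y *ᵥ (f *ᵥ (x *ᵥ v))) := by
      rw [← Matrix.mulVec_mulVec, ← Matrix.mulVec_mulVec, ← Matrix.mulVec_mulVec,
        ← Matrix.mulVec_mulVec, Matrix.dotProduct_mulVec, Matrix.dotProduct_mulVec]
    rw [h1, altSpace_mulVec hx, Matrix.neg_vecMul, altSpace_mulVec hf, neg_neg]
    exact hy _

theorem altSpace_diag {x : Matrix (Fin N) (Fin N) F} (hx : x ∈ altSpace F N) (i : Fin N) :
    x i i = 0 := by
  have := hx (Pi.single i 1)
  simpa using this

theorem altSpace_neg {x : Matrix (Fin N) (Fin N) F} (hx : x ∈ altSpace F N) (i j : Fin N) :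
    x i j = -x j i := by
  have := congrFun (altSpace_mulVec hx (Pi.single i 1)) j
  simpa using this

theorem coeffMat_genAlt_mem (m : Fin N × Fin N →₀ ℕ) :
    coeffMat (genAlt F N) m ∈ altSpace F N := by
  refine mem_altSpace_of (fun i => ?_) fun i j => ?_
  · simp [coeffMat, genAlt]
  · rcases lt_trichotomy i j with h | h | h
    · simp [coeffMat, genAlt, h, h.not_gt]
    · subst h; simp [coeffMat, genAlt]
    · simp [coeffMat, genAlt, h, h.not_gt]

/-- The standard alternating matrix of rank `2 m` and order `2 m + 1`. -/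
theorem exists_std (m : ℕ) : ∃ f : Matrix (Fin (2 * m + 1)) (Fin (2 * m + 1)) F,
    f ∈ altSpace F (2 * m + 1) ∧ ∃ k : Fin (2 * m + 1), ∀ i j,
      (1 + f * f) i j = if i = k ∧ j = k then 1 else 0 := by
  classical
  have e0 : Fin (2 * m + 1) ≃ (Fin m ⊕ Fin m) ⊕ Unit := by
    refine (Fintype.equivOfCardEq ?_)
    simp; ring
  set f0 : Matrix ((Fin m ⊕ Fin m) ⊕ Unit) ((Fin m ⊕ Fin m) ⊕ Unit) F :=
    Matrix.fromBlocks (Matrix.fromBlocks 0 1 (-1) 0) 0 0 0 with hf0
  refine ⟨f0.submatrix e0 e0, ?_, e0.symm (Sum.inr ()), ?_⟩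
  · refine mem_altSpace_of (fun i => ?_) fun i j => ?_
    · rw [Matrix.submatrix_apply]
      rcases e0 i with (x | x) | x <;> simp [hf0]
    · rw [Matrix.submatrix_apply, Matrix.submatrix_apply]
      rcases e0 i with (x | x) | x <;> rcases e0 j with (y | y) | y <;>
        simp [hf0, Matrix.one_apply, eq_comm]
  · intro i j
    have h1 : (1 + f0.submatrix e0 e0 * f0.submatrix e0 e0) =
        (1 + f0 * f0).submatrix e0 e0 := by
      rw [Matrix.submatrix_mul_equiv, ← Matrix.submatrix_one_equiv e0]
      rfl
    have h2 : 1 + f0 * f0 = Matrix.fromBlocks 0 0 0 1 := by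
      rw [hf0, Matrix.fromBlocks_multiply, Matrix.fromBlocks_multiply]
      have h3 : (1 : Matrix ((Fin m ⊕ Fin m) ⊕ Unit) ((Fin m ⊕ Fin m) ⊕ Unit) F) =
        Matrix.fromBlocks 1 0 0 1 := Matrix.fromBlocks_one.symm
      have h4 : (1 : Matrix (Fin m ⊕ Fin m) (Fin m ⊕ Fin m) F) =
        Matrix.fromBlocks 1 0 0 1 := Matrix.fromBlocks_one.symm
      simp only [Matrix.mul_zero, Matrix.zero_mul, Matrix.mul_one, Matrix.one_mul, add_zero,
        zero_add, Matrix.mul_neg, neg_zero]
      rw [h3, h4, Matrix.fromBlocks_add, Matrix.fromBlocks_add]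
      simp
    rw [h1, h2, Matrix.submatrix_apply]
    have h5 : ∀ i, i = e0.symm (Sum.inr ()) ↔ e0 i = Sum.inr () := fun i =>
      (Equiv.eq_symm_apply e0)
    simp only [h5]
    rcases e0 i with x | x <;> rcases e0 j with y | y <;> simp

/-- The generic alternating matrix of odd order `2 m + 1` has a Jordan certificate for the bound
`2 m`. -/
theorem cert_genAlt (m : ℕ) :
    ∃ e f, Certifies (genAlt F (2 * m + 1)) (2 * m) 1 1 e f := by
  classical
  obtain ⟨f, hf, k, hk⟩ := exists_std (F := F) m
  have hE : 1 + f * f = Matrix.single k k 1 := by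
    ext i j
    rw [hk, Matrix.single_apply]
    simp only [eq_comm]
  refine ⟨-f, f, ?_, ?_⟩
  · intro x hx
    have hx' : x ∈ altSpace F (2 * m + 1) := by
      refine jordanHull_le (altSpace_closed hf) ?_ hx
      rintro _ ⟨q, rfl⟩
      beta_reduce
      rw [Matrix.one_mul, Matrix.mul_one]
      exact coeffMat_genAlt_mem q
    rw [Matrix.neg_mul, Matrix.mul_neg, sub_neg_eq_add, hE]
    ext i j
    by_cases hi : i = k
    · by_cases hj : j = k
      · subst hi; subst hj
        simp [Matrix.mul_apply, Matrix.single_apply, altSpace_diag hx']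
      · simp [Matrix.mul_apply, Matrix.single_apply, Ne.symm hj]
    · simp [Matrix.mul_apply, Matrix.single_apply, Ne.symm hi]
  · rw [Matrix.rank_one, Fintype.card_fin, Nat.sub_self, zero_add, zero_add]
    have h1 := LinearMap.finrank_range_add_finrank_ker (-f).mulVecLin
    rw [Module.finrank_fin_fun] at h1
    have h2 : (-f).rank = finrank F (LinearMap.range (-f).mulVecLin) := rfl
    -- `f (f f) = (f f) f` so `f E = E f`; the kernel contains the vector `e_k`
    have h3 : f * Matrix.single k k 1 = 0 := by
      have h4 : f * Matrix.single k k (1 : F) = Matrix.single k k 1 * f := by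
        rw [← hE, Matrix.mul_add, Matrix.add_mul, Matrix.mul_one, Matrix.one_mul,
          Matrix.mul_assoc]
      ext i j
      by_cases hj : j = k
      · subst hj
        by_cases hi : i = j
        · subst hi
          simp [Matrix.mul_apply, Matrix.single_apply, altSpace_diag hf]
        · have := congrFun (congrFun h4 i) j
          rw [this]
          simp [Matrix.mul_apply, Matrix.single_apply, Ne.symm hi]
      · simp [Matrix.mul_apply, Matrix.single_apply, Ne.symm hj]
    have h5 : Pi.single k 1 ∈ LinearMap.ker (-f).mulVecLin := by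
      rw [LinearMap.mem_ker, Matrix.mulVecLin_apply]
      funext i
      have := congrFun (congrFun h3 i) k
      simp [Matrix.mul_apply, Matrix.single_apply] at this
      simp [this]
    have h6 : 0 < finrank F (LinearMap.ker (-f).mulVecLin) := by
      rw [Module.finrank_pos_iff_exists_ne_zero]
      refine ⟨⟨_, h5⟩, fun h => ?_⟩
      have := congrFun (congrArg Subtype.val h) k
      simp at this
    omega

/-- No shrunk subspace: the noncommutative rank of the generic alternating matrix of order
`N ≥ 2` is full. -/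
theorem not_shrunk (hN : 2 ≤ N) (U : Submodule F (Fin N → F)) :
    finrank F U ≤ finrank F (imageSpace (genAlt F N) U) := by
  classical
  set W := imageSpace (genAlt F N) U with hW
  have hmem : ∀ u ∈ U, ∀ i j : Fin N, i ≠ j →
      (Pi.single i (u j) - Pi.single j (u i) : Fin N → F) ∈ W := by
    have key : ∀ u ∈ U, ∀ i j : Fin N, i < j →
        (Pi.single i (u j) - Pi.single j (u i) : Fin N → F) ∈ W := by
      intro u hu i j hij
      have h1 := mem_imageSpace (genAlt F N) U (Finsupp.single (i, j) 1) hu
      convert h1 using 1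
      funext k
      have h2 : ∀ l : Fin N, coeffMat (genAlt F N) (Finsupp.single (i, j) 1) k l =
          if k = i ∧ l = j then 1 else if k = j ∧ l = i then -1 else 0 := by
        intro l
        rcases lt_trichotomy k l with h | h | h
        · simp only [coeffMat, Matrix.map_apply, genAlt, h, if_true]
          rw [coeff_X]
          by_cases h3 : k = i ∧ l = j
          · obtain ⟨rfl, rfl⟩ := h3
            simp
          · have h4 : ¬ (k = j ∧ l = i) := by
              rintro ⟨rfl, rfl⟩
              exact absurd hij h.not_gt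
            rw [if_neg h3, if_neg h4, if_neg]
            intro h5
            have h6 := (Finsupp.single_left_inj one_ne_zero).1 h5
            exact h3 ⟨(Prod.ext_iff.1 h6).1, (Prod.ext_iff.1 h6).2⟩
        · subst h
          have h3 : ¬ (k = i ∧ k = j) := by
            rintro ⟨rfl, rfl⟩; exact lt_irrefl _ hij
          have h4 : ¬ (k = j ∧ k = i) := by
            rintro ⟨rfl, rfl⟩; exact lt_irrefl _ hij
          simp [coeffMat, Matrix.map_apply, genAlt, h3, h4]
        · simp only [coeffMat, Matrix.map_apply, genAlt, h, h.not_gt, if_true, if_false,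
            coeff_neg]
          rw [coeff_X]
          have h3 : ¬ (k = i ∧ l = j) := by
            rintro ⟨rfl, rfl⟩
            exact absurd hij h.not_gt
          rw [if_neg h3]
          by_cases h4 : k = j ∧ l = i
          · obtain ⟨rfl, rfl⟩ := h4
            simp
          · rw [if_neg h4, if_neg, neg_zero]
            intro h5
            have h6 := (Finsupp.single_left_inj one_ne_zero).1 h5
            exact h4 ⟨(Prod.ext_iff.1 h6).2, (Prod.ext_iff.1 h6).1⟩
      simp only [Matrix.mulVec, dotProduct, h2]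
      by_cases hk : k = i
      · subst hk
        have : ∀ l : Fin N, ¬ (k = j ∧ l = k) := fun l h => hij.ne h.1
        simp [this, hij.ne, hij.ne']
      · by_cases hk' : k = j
        · subst hk'
          simp [hij.ne']
        · simp [hk, hk']
    intro u hu i j hij
    rcases lt_or_gt_of_ne hij with h | h
    · exact key u hu i j h
    · have := W.neg_mem (key u hu j i h)
      rwa [neg_sub] at this
  by_cases hW1 : W = ⊤
  · rw [hW1, finrank_top]
    exact Submodule.finrank_le U
  · -- a functional which vanishes on `W`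
    obtain ⟨φ, hφ0, hφ⟩ := Submodule.exists_le_ker_of_lt_top W (lt_top_iff_ne_top.2 hW1)
    set p : Fin N → F := fun i => φ (Pi.single i 1) with hp
    have hφs : ∀ (i : Fin N) (c : F), φ (Pi.single i c) = c * p i := by
      intro i c
      have : (Pi.single i c : Fin N → F) = c • Pi.single i 1 := by
        rw [← Pi.single_smul, smul_eq_mul, mul_one]
      rw [this, map_smul, smul_eq_mul]
    obtain ⟨i₀, hi₀⟩ : ∃ i, p i ≠ 0 := by
      by_contra hcon
      push Not at hcon
      apply hφ0
      refine LinearMap.pi_ext fun i c => ?_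
      rw [hφs, hcon, mul_zero, LinearMap.zero_apply]
    have hU : U ≤ Submodule.span F {p} := by
      intro u hu
      rw [Submodule.mem_span_singleton]
      refine ⟨u i₀ / p i₀, ?_⟩
      funext j
      rw [Pi.smul_apply, smul_eq_mul]
      by_cases hj : j = i₀
      · subst hj; field_simp
      · have h1 := hφ (hmem u hu j i₀ hj)
        rw [LinearMap.mem_ker, map_sub, hφs, hφs] at h1
        field_simp
        linear_combination h1
    have hU1 : finrank F U ≤ 1 :=
      (Submodule.finrank_mono hU).trans (finrank_span_le_card _ |>.trans (by simp))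
    rcases Nat.lt_or_ge 0 (finrank F U) with hpos | h0
    · have h2 : finrank F U = 1 := le_antisymm hU1 hpos
      rw [h2]
      obtain ⟨⟨u, hu⟩, hu0⟩ := Module.finrank_pos_iff_exists_ne_zero.1 hpos
      have hu0' : u ≠ 0 := fun h => hu0 (Subtype.ext h)
      obtain ⟨i, hi⟩ := Function.ne_iff.1 hu0'
      have : Nontrivial (Fin N) := Fin.nontrivial_iff_two_le.2 hN
      obtain ⟨j, hj⟩ := exists_ne i
      have h3 := hmem u hu j i hj
      have h4 : 0 < finrank F W := by
        rw [Module.finrank_pos_iff_exists_ne_zero]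
        refine ⟨⟨_, h3⟩, fun h => ?_⟩
        have h5 := congrFun (congrArg Subtype.val h) j
        simp only [Pi.sub_apply, Pi.single_eq_same, Pi.single_eq_of_ne hj, sub_zero] at h5
        exact hi h5
      exact h4
    · omega

end Pool.Agent.V7H48.JC
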