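import Mathlib

/-!
# Jordan certificates for upper bounds of the rank: the core
-/

set_option autoImplicit false
set_option linter.unusedSectionVars false

namespace Pool.Agent.V7H48.JC

open Matrix Module

section minors

variable {K : Type*} [Field K]

/-- Minors (from `Pool.Agent.V7H4.NC.Dd` by helper4). -/
theorem exists_rows {m n : Type*} [Fintype m] [Fintype n] (M : Matrix m n K) (k : ℕ)
    (hk : M.rank = k) : ∃ r : Fin k → m, LinearIndependent K (M.submatrix r id).row := by
  classical
  rw [Matrix.rank_eq_finrank_span_row] at hk
  obtain ⟨f, hf, -, hli⟩ := Submodule.exists_fun_fin_finrank_span_eq K (Set.range M.row)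
  choose r hr using hf
  subst hk
  refine ⟨r, ?_⟩
  have : (M.submatrix r id).row = f := by
    funext i
    rw [← hr i]
    rfl
  rw [this]
  exact hli

theorem exists_minor {m n : Type*} [Fintype m] [Fintype n] (M : Matrix m n K) (k : ℕ)
    (hk : M.rank = k) : ∃ (r : Fin k → m) (c : Fin k → n), (M.submatrix r c).det ≠ 0 := by
  classical
  obtain ⟨r, hr⟩ := exists_rows M k hk
  have h1 : (M.submatrix r id)ᵀ.rank = k := by
    rw [Matrix.rank_transpose]
    rw [LinearIndependent.rank_matrix hr, Fintype.card_fin]
  obtain ⟨c, hc⟩ := exists_rows _ k h1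
  refine ⟨r, c, ?_⟩
  have h2 : (M.submatrix r id)ᵀ.submatrix c id = (M.submatrix r c)ᵀ := rfl
  rw [h2, Matrix.linearIndependent_rows_iff_isUnit, Matrix.isUnit_iff_isUnit_det,
    Matrix.det_transpose] at hc
  exact hc.ne_zero

theorem le_rank_of_minor {m n : Type*} [Fintype m] [Fintype n] (M : Matrix m n K) (k : ℕ)
    (r : Fin k → m) (c : Fin k → n) (h : (M.submatrix r c).det ≠ 0) : k ≤ M.rank := by
  classical
  have h1 : (M.submatrix r c).rank = k := by
    rw [Matrix.rank_of_isUnit _ ((Matrix.isUnit_iff_isUnit_det _).2 (isUnit_iff_ne_zero.2 h)),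
      Fintype.card_fin]
  calc k = (M.submatrix r c).rank := h1.symm
    _ ≤ M.rank := Matrix.rank_submatrix_le M r c

/-- specialisation does not increase the rank -/
theorem rank_map_le {R E L : Type*} [CommRing R] [Field E] [Field L] {m n : Type*} [Fintype m]
    [Fintype n] (M : Matrix m n R) (φ : R →+* E) (ψ : R →+* L) (hψ : Function.Injective ψ) :
    (M.map φ).rank ≤ (M.map ψ).rank := by
  classical
  obtain ⟨r, c, h⟩ := exists_minor (M.map φ) _ rfl
  apply le_rank_of_minor _ _ r c
  have h1 : ((M.map φ).submatrix r c).det = φ (M.submatrix r c).det := by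
    rw [RingHom.map_det]; rfl
  have h2 : ((M.map ψ).submatrix r c).det = ψ (M.submatrix r c).det := by
    rw [RingHom.map_det]; rfl
  rw [h1] at h
  rw [h2]
  intro h3
  apply h
  rw [(map_eq_zero_iff ψ hψ).1 h3, map_zero]

end minors

section core

variable {K V W : Type*} [Field K] [AddCommGroup V] [Module K V] [FiniteDimensional K V]
  [AddCommGroup W] [Module K W] [FiniteDimensional K W]

theorem finrank_range_le (E B : V →ₗ[K] W) (G : W →ₗ[K] V)
    (hB : ∀ (k : ℕ) (v : V), E v = 0 →
      E (G (B (((G ∘ₗ B) ^ k) v))) = B (((G ∘ₗ B) ^ k) v)) :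
    finrank K (LinearMap.range B) ≤ finrank K (LinearMap.range E) := by
  set T : V →ₗ[K] V := G ∘ₗ B with hT
  set U : Submodule K V := ⨆ k : ℕ, (LinearMap.ker E).map (T ^ k) with hU
  have hkU : LinearMap.ker E ≤ U := by
    refine le_trans ?_ (le_iSup (fun k : ℕ => (LinearMap.ker E).map (T ^ k)) 0)
    intro v hv
    exact ⟨v, hv, by simp⟩
  have hBU : ∀ u ∈ U, E (G (B u)) = B u := by
    intro u hu
    refine Submodule.iSup_induction (fun k : ℕ => (LinearMap.ker E).map (T ^ k))
      (motive := fun u => E (G (B u)) = B u) hu ?_ (by simp) ?_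
    · rintro k _ ⟨v, hv, rfl⟩
      exact hB k v hv
    · intro x y hx hy
      simp only [map_add, hx, hy]
  have hTU : ∀ u ∈ U, T u ∈ U := by
    intro u hu
    refine Submodule.iSup_induction (fun k : ℕ => (LinearMap.ker E).map (T ^ k))
      (motive := fun u => T u ∈ U) hu ?_ (by simp) ?_
    · rintro k _ ⟨v, hv, rfl⟩
      refine le_iSup (fun k : ℕ => (LinearMap.ker E).map (T ^ k)) (k + 1) ?_
      exact ⟨v, hv, by rw [pow_succ']; rfl⟩
    · intro x y hx hy
      rw [map_add]
      exact U.add_mem hx hy
  -- the image of `U` under `B`, mapped to `U` by `G`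
  set BU : Submodule K W := U.map B with hBUdef
  set S : Submodule K V := BU.map G with hS
  have hSU : S ≤ U := by
    rintro _ ⟨_, ⟨u, hu, rfl⟩, rfl⟩
    exact hTU u hu
  have hinj : ∀ y ∈ BU, E (G y) = y := by
    rintro _ ⟨u, hu, rfl⟩
    exact hBU u hu
  have hSdim : finrank K S = finrank K BU := by
    have hi : Function.Injective (G.domRestrict BU) := by
      rw [← LinearMap.ker_eq_bot, LinearMap.ker_eq_bot']
      intro y hy
      have h1 := hinj y y.2
      have h2 : G (y : W) = 0 := hy
      rw [h2, map_zero] at h1
      exact Subtype.ext h1.symm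
    have h1 : LinearMap.range (G.domRestrict BU) = S := by
      ext v
      constructor
      · rintro ⟨y, rfl⟩
        exact ⟨y, y.2, rfl⟩
      · rintro ⟨y, hy, rfl⟩
        exact ⟨⟨y, hy⟩, rfl⟩
    rw [← h1]
    exact LinearMap.finrank_range_of_inj hi
  have hdisj : Disjoint S (LinearMap.ker E) := by
    rw [Submodule.disjoint_def]
    rintro _ ⟨y, hy, rfl⟩ hk
    have h1 := hinj y hy
    rw [LinearMap.mem_ker.1 hk] at h1
    rw [← h1, map_zero]
  have hsum : finrank K S + finrank K (LinearMap.ker E) ≤ finrank K U := by
    have h1 := Submodule.finrank_sup_add_finrank_inf_eq S (LinearMap.ker E)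
    rw [hdisj.eq_bot, finrank_bot, add_zero] at h1
    rw [← h1]
    exact Submodule.finrank_mono (sup_le hSU hkU)
  -- the rank of `B`
  have h1 := LinearMap.finrank_range_add_finrank_ker B
  have h2 := LinearMap.finrank_range_add_finrank_ker E
  have h3 := LinearMap.finrank_range_add_finrank_ker (B.domRestrict U)
  have h4 : LinearMap.range (B.domRestrict U) = BU := by
    ext v
    constructor
    · rintro ⟨y, rfl⟩
      exact ⟨y, y.2, rfl⟩
    · rintro ⟨y, hy, rfl⟩
      exact ⟨⟨y, hy⟩, rfl⟩
  have h5 : finrank K (LinearMap.ker (B.domRestrict U)) ≤ finrank K (LinearMap.ker B) := by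
    have hi : Function.Injective
        (U.subtype.restrict (p := LinearMap.ker (B.domRestrict U)) (q := LinearMap.ker B)
          (fun x hx => by exact hx)) := by
      intro x y hxy
      have := congrArg Subtype.val hxy
      exact Subtype.ext (Subtype.ext this)
    exact LinearMap.finrank_le_finrank_of_injective hi
  rw [h4] at h3
  omega

end core

section matrices

variable {p q : Type*} [Fintype p] [Fintype q] [DecidableEq p] [DecidableEq q]

theorem rank_le_of_corner {K : Type*} [Field K] (e b : Matrix p q K) (f : Matrix q p K)
    (hb : ∀ k : ℕ, (1 - e * f) * (b * (f * b) ^ k) * (1 - f * e) = 0) : b.rank ≤ e.rank := by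
  refine finrank_range_le e.mulVecLin b.mulVecLin f.mulVecLin ?_
  · intro k v hv
    have h1 : ((f.mulVecLin ∘ₗ b.mulVecLin) ^ k) v = ((f * b) ^ k) *ᵥ v := by
      rw [← Matrix.mulVecLin_mul]
      induction k with
      | zero => simp
      | succ k ih =>
        rw [pow_succ', pow_succ', Module.End.mul_apply, ih, Matrix.mulVecLin_apply,
          Matrix.mulVec_mulVec]
    rw [h1]
    simp only [Matrix.mulVecLin_apply] at hv ⊢
    have h2 := congrArg (fun X : Matrix p q K => X *ᵥ v) (hb k)
    simp only [← Matrix.mulVec_mulVec, Matrix.sub_mulVec, Matrix.one_mulVec, hv,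
      Matrix.mulVec_zero, sub_zero, Matrix.zero_mulVec] at h2
    exact (sub_eq_zero.1 h2).symm

/-- The subspace `J` of matrices is closed under the Jordan products `x f x` and `x f y f x`. -/
def JClosed {F : Type*} [Field F] (f : Matrix q p F) (J : Submodule F (Matrix p q F)) : Prop :=
  ∀ x ∈ J, x * f * x ∈ J ∧ ∀ y ∈ J, x * f * y * f * x ∈ J

theorem JClosed.two {F : Type*} [Field F] {f : Matrix q p F} {J : Submodule F (Matrix p q F)}
    (h : JClosed f J) {x y : Matrix p q F} (hx : x ∈ J) (hy : y ∈ J) :
    x * f * y + y * f * x ∈ J := by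
  have h1 := (h (x + y) (J.add_mem hx hy)).1
  have h2 : x * f * y + y * f * x = (x + y) * f * (x + y) - x * f * x - y * f * y := by
    simp only [Matrix.add_mul, Matrix.mul_add]
    abel
  rw [h2]
  exact J.sub_mem (J.sub_mem h1 (h x hx).1) (h y hy).1

theorem JClosed.three {F : Type*} [Field F] {f : Matrix q p F} {J : Submodule F (Matrix p q F)}
    (h : JClosed f J) {x y z : Matrix p q F} (hx : x ∈ J) (hy : y ∈ J) (hz : z ∈ J) :
    x * f * y * f * z + z * f * y * f * x ∈ J := by
  have h1 := (h (x + z) (J.add_mem hx hz)).2 y hy
  have h2 : x * f * y * f * z + z * f * y * f * x =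
      (x + z) * f * y * f * (x + z) - x * f * y * f * x - z * f * y * f * z := by
    simp only [Matrix.add_mul, Matrix.mul_add]
    abel
  rw [h2]
  exact J.sub_mem (J.sub_mem h1 ((h x hx).2 y hy)) ((h z hz).2 y hy)

/-- The powers `x (f x) ^ k` stay in `J`. -/
theorem JClosed.pow_mem {F : Type*} [Field F] {f : Matrix q p F} {J : Submodule F (Matrix p q F)}
    (h : JClosed f J) {x : Matrix p q F} (hx : x ∈ J) (k : ℕ) : x * (f * x) ^ k ∈ J := by
  induction k using Nat.strong_induction_on with
  | _ k ih =>
    rcases k with _ | _ | k
    · simpa using hx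
    · have := (h x hx).1
      simpa [Matrix.mul_assoc] using this
    · have h1 := (h x hx).2 _ (ih k (by omega))
      have h2 : x * (f * x) ^ (k + 1 + 1) = x * f * (x * (f * x) ^ k) * f * x := by
        rw [pow_succ', pow_succ]
        simp only [Matrix.mul_assoc]
      rw [h2]
      exact h1

/-- The extension of a space of matrices to a larger field. -/
def ext {F : Type*} (K : Type*) [Field F] [Field K] [Algebra F K]
    (J : Submodule F (Matrix p q F)) : Submodule K (Matrix p q K) :=
  Submodule.span K ((fun x : Matrix p q F => x.map (algebraMap F K)) '' (J : Set (Matrix p q F)))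

variable {F K : Type*} [Field F] [Field K] [Algebra F K]

theorem ext_closed {f : Matrix q p F} {J : Submodule F (Matrix p q F)} (h : JClosed f J) :
    JClosed (f.map (algebraMap F K)) (ext K J) := by
  set φ := algebraMap F K with hφ
  have hgen : ∀ x ∈ J, x.map φ ∈ ext K J := fun x hx => Submodule.subset_span ⟨x, hx, rfl⟩
  -- bilinear
  have hb : ∀ x ∈ ext K J, ∀ y ∈ ext K J,
      x * f.map φ * y + y * f.map φ * x ∈ ext K J := by
    intro x hx y hy
    induction hx using Submodule.span_induction with
    | mem x hx =>
      obtain ⟨x, hx, rfl⟩ := hx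
      induction hy using Submodule.span_induction with
      | mem y hy =>
        obtain ⟨y, hy, rfl⟩ := hy
        have := hgen _ (h.two hx hy)
        simpa [Matrix.map_add, Matrix.map_mul] using this
      | zero => simp
      | add y z _ _ hy hz =>
        have := (ext K J).add_mem hy hz
        convert this using 1
        simp only [Matrix.add_mul, Matrix.mul_add]
        abel
      | smul c y _ hy =>
        have := (ext K J).smul_mem c hy
        convert this using 1
        simp only [Matrix.smul_mul, Matrix.mul_smul, smul_add]
    | zero => simp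
    | add x z _ _ hx hz =>
      have := (ext K J).add_mem hx hz
      convert this using 1
      simp only [Matrix.add_mul, Matrix.mul_add]
      abel
    | smul c x _ hx =>
      have := (ext K J).smul_mem c hx
      convert this using 1
      simp only [Matrix.smul_mul, Matrix.mul_smul, smul_add]
  -- trilinear
  have ht : ∀ x ∈ ext K J, ∀ z ∈ ext K J, ∀ y ∈ ext K J,
      x * f.map φ * y * f.map φ * z + z * f.map φ * y * f.map φ * x ∈ ext K J := by
    intro x hx z hz y hy
    induction hx using Submodule.span_induction with
    | mem x hx =>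
      obtain ⟨x, hx, rfl⟩ := hx
      induction hz using Submodule.span_induction with
      | mem z hz =>
        obtain ⟨z, hz, rfl⟩ := hz
        induction hy using Submodule.span_induction with
        | mem y hy =>
          obtain ⟨y, hy, rfl⟩ := hy
          have := hgen _ (h.three hx hy hz)
          simpa [Matrix.map_add, Matrix.map_mul] using this
        | zero => simp
        | add y w _ _ hy hw =>
          have := (ext K J).add_mem hy hw
          convert this using 1
          simp only [Matrix.add_mul, Matrix.mul_add]
          abel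
        | smul c y _ hy =>
          have := (ext K J).smul_mem c hy
          convert this using 1
          simp only [Matrix.smul_mul, Matrix.mul_smul, smul_add]
      | zero => simp
      | add z w _ _ hz hw =>
        have := (ext K J).add_mem hz hw
        convert this using 1
        simp only [Matrix.add_mul, Matrix.mul_add]
        abel
      | smul c z _ hz =>
        have := (ext K J).smul_mem c hz
        convert this using 1
        simp only [Matrix.smul_mul, Matrix.mul_smul, smul_add]
    | zero => simp
    | add x w _ _ hx hw =>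
      have := (ext K J).add_mem hx hw
      convert this using 1
      simp only [Matrix.add_mul, Matrix.mul_add]
      abel
    | smul c x _ hx =>
      have := (ext K J).smul_mem c hx
      convert this using 1
      simp only [Matrix.smul_mul, Matrix.mul_smul, smul_add]
  intro x hx
  refine ⟨?_, ?_⟩
  · induction hx using Submodule.span_induction with
    | mem x hx =>
      obtain ⟨x, hx, rfl⟩ := hx
      have := hgen _ (h x hx).1
      simpa [Matrix.map_mul] using this
    | zero => simp
    | add x y hx' hy' hx hy =>
      have h1 := (ext K J).add_mem ((ext K J).add_mem hx hy) (hb x hx' y hy')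
      convert h1 using 1
      simp only [Matrix.add_mul, Matrix.mul_add]
      abel
    | smul c x _ hx =>
      have := (ext K J).smul_mem (c * c) hx
      convert this using 1
      simp only [Matrix.smul_mul, Matrix.mul_smul, smul_smul]
  · intro y hy
    induction hx using Submodule.span_induction with
    | mem x hx =>
      obtain ⟨x, hx, rfl⟩ := hx
      induction hy using Submodule.span_induction with
      | mem y hy =>
        obtain ⟨y, hy, rfl⟩ := hy
        have := hgen _ ((h x hx).2 y hy)
        simpa [Matrix.map_mul] using this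
      | zero => simp
      | add y z _ _ hy hz =>
        have := (ext K J).add_mem hy hz
        convert this using 1
        simp only [Matrix.add_mul, Matrix.mul_add]
      | smul c y _ hy =>
        have := (ext K J).smul_mem c hy
        convert this using 1
        simp only [Matrix.smul_mul, Matrix.mul_smul]
    | zero => simp
    | add x z hx' hz' hx hz =>
      have h1 := (ext K J).add_mem ((ext K J).add_mem hx hz) (ht x hx' z hz' y hy)
      convert h1 using 1
      simp only [Matrix.add_mul, Matrix.mul_add]
      abel
    | smul c x _ hx =>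
      have := (ext K J).smul_mem (c * c) hx
      convert this using 1
      simp only [Matrix.smul_mul, Matrix.mul_smul, smul_smul]

/-- **Soundness** over all extension fields. -/
theorem rank_le {e : Matrix p q F} {f : Matrix q p F} {J : Submodule F (Matrix p q F)}
    (hJ : JClosed f J)
    (hc : ∀ x ∈ J, (1 - e * f) * x * (1 - f * e) = 0) {b : Matrix p q K} (hb : b ∈ ext K J) :
    b.rank ≤ e.rank := by
  set φ := algebraMap F K with hφ
  have hc' : ∀ x ∈ ext K J, (1 - e.map φ * f.map φ) * x * (1 - f.map φ * e.map φ) = 0 := by
    intro x hx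
    induction hx using Submodule.span_induction with
    | mem x hx =>
      obtain ⟨x, hx, rfl⟩ := hx
      have h1 := congrArg (fun X : Matrix p q F => X.map φ) (hc x hx)
      simpa [Matrix.map_mul, Matrix.map_sub] using h1
    | zero => simp
    | add x y _ _ hx hy => rw [Matrix.mul_add, Matrix.add_mul, hx, hy, add_zero]
    | smul c x _ hx => rw [Matrix.mul_smul, Matrix.smul_mul, hx, smul_zero]
  have h1 : b.rank ≤ (e.map φ).rank :=
    rank_le_of_corner (e.map φ) b (f.map φ) fun k => hc' _ ((ext_closed hJ).pow_mem hb k)
  refine h1.trans ?_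
  have h2 := rank_map_le e φ (RingHom.id F) Function.injective_id
  simpa using h2

end matrices

end Pool.Agent.V7H48.JC
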