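import Pool.Agent.V7H48.JC.Core

/-!
# Jordan certificates for upper bounds of the rank of polynomial matrices: definitions, soundness
-/

set_option autoImplicit false
set_option linter.unusedSectionVars false

namespace Pool.Agent.V7H48.JC

open Matrix Module MvPolynomial

variable {F : Type*} [Field F] {σ : Type*} {a b : ℕ}

/-- The rank of a polynomial matrix over the field of rational functions. -/
noncomputable def symRank (M : Matrix (Fin a) (Fin b) (MvPolynomial σ F)) : ℕ :=
  (M.map (algebraMap (MvPolynomial σ F) (FractionRing (MvPolynomial σ F)))).rank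

/-- The matrix of the coefficients of the monomial `m` in the entries of `M`. -/
def coeffMat (M : Matrix (Fin a) (Fin b) (MvPolynomial σ F)) (m : σ →₀ ℕ) :
    Matrix (Fin a) (Fin b) F :=
  M.map (coeff m)

/-- The Jordan hull of `S` with respect to `f`: the smallest subspace which contains `S` and which
contains `x f x` and `x f y f x` whenever it contains `x` and `y`. -/
def jordanHull (f : Matrix (Fin b) (Fin a) F) (S : Set (Matrix (Fin a) (Fin b) F)) :
    Submodule F (Matrix (Fin a) (Fin b) F) :=
  sInf {J | JClosed f J ∧ S ⊆ (J : Set (Matrix (Fin a) (Fin b) F))}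

/-- `(P, Q, e, f)` is a Jordan certificate for the bound `rank M ≤ r`: the corners
`(1 - e f) x (1 - f e)` of the elements `x` of the Jordan hull of the coefficient matrices of
`P M Q` vanish, and `(a - rank P) + (b - rank Q) + rank e ≤ r`. -/
def Certifies (M : Matrix (Fin a) (Fin b) (MvPolynomial σ F)) (r : ℕ)
    (P : Matrix (Fin a) (Fin a) F) (Q : Matrix (Fin b) (Fin b) F)
    (e : Matrix (Fin a) (Fin b) F) (f : Matrix (Fin b) (Fin a) F) : Prop :=
  (∀ x ∈ jordanHull f (Set.range fun m : σ →₀ ℕ => P * coeffMat M m * Q),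
    (1 - e * f) * x * (1 - f * e) = 0) ∧
  (a - P.rank) + (b - Q.rank) + e.rank ≤ r

theorem jordanHull_closed (f : Matrix (Fin b) (Fin a) F) (S : Set (Matrix (Fin a) (Fin b) F)) :
    JClosed f (jordanHull f S) := by
  intro x hx
  unfold jordanHull at hx ⊢
  rw [Submodule.mem_sInf] at hx
  refine ⟨?_, fun y hy => ?_⟩
  · rw [Submodule.mem_sInf]
    exact fun J hJ => (hJ.1 x (hx J hJ)).1
  · rw [Submodule.mem_sInf] at hy ⊢
    exact fun J hJ => (hJ.1 x (hx J hJ)).2 y (hy J hJ)

theorem subset_jordanHull (f : Matrix (Fin b) (Fin a) F) (S : Set (Matrix (Fin a) (Fin b) F)) :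
    S ⊆ (jordanHull f S : Set (Matrix (Fin a) (Fin b) F)) := by
  intro x hx
  unfold jordanHull
  rw [SetLike.mem_coe, Submodule.mem_sInf]
  exact fun J hJ => hJ.2 hx

theorem jordanHull_le {f : Matrix (Fin b) (Fin a) F} {S : Set (Matrix (Fin a) (Fin b) F)}
    {J : Submodule F (Matrix (Fin a) (Fin b) F)} (hJ : JClosed f J)
    (hS : S ⊆ (J : Set (Matrix (Fin a) (Fin b) F))) : jordanHull f S ≤ J :=
  sInf_le ⟨hJ, hS⟩

section sylvester

variable {K : Type*} [Field K]

theorem rank_left (P : Matrix (Fin a) (Fin a) K) (M : Matrix (Fin a) (Fin b) K) :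
    M.rank + P.rank ≤ (P * M).rank + a := by
  have h1 := LinearMap.finrank_range_add_finrank_ker
    (P.mulVecLin.domRestrict (LinearMap.range M.mulVecLin))
  have h2 : LinearMap.range (P.mulVecLin.domRestrict (LinearMap.range M.mulVecLin)) =
      LinearMap.range (P * M).mulVecLin := by
    rw [Matrix.mulVecLin_mul, LinearMap.range_comp]
    ext v
    constructor
    · rintro ⟨y, rfl⟩
      exact ⟨y, y.2, rfl⟩
    · rintro ⟨y, hy, rfl⟩
      exact ⟨⟨y, hy⟩, rfl⟩
  rw [h2] at h1
  have h3 : finrank K (LinearMap.ker
      (P.mulVecLin.domRestrict (LinearMap.range M.mulVecLin))) ≤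
      finrank K (LinearMap.ker P.mulVecLin) := by
    have hi : Function.Injective
        ((LinearMap.range M.mulVecLin).subtype.restrict
          (p := LinearMap.ker (P.mulVecLin.domRestrict (LinearMap.range M.mulVecLin)))
          (q := LinearMap.ker P.mulVecLin) (fun x hx => by exact hx)) := by
      intro x y hxy
      have := congrArg Subtype.val hxy
      exact Subtype.ext (Subtype.ext this)
    exact LinearMap.finrank_le_finrank_of_injective hi
  have h4 := LinearMap.finrank_range_add_finrank_ker P.mulVecLin
  rw [Module.finrank_fin_fun] at h4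
  have h5 : M.rank = finrank K (LinearMap.range M.mulVecLin) := rfl
  have h6 : P.rank = finrank K (LinearMap.range P.mulVecLin) := rfl
  have h7 : (P * M).rank = finrank K (LinearMap.range (P * M).mulVecLin) := rfl
  omega

theorem rank_both (P : Matrix (Fin a) (Fin a) K) (Q : Matrix (Fin b) (Fin b) K)
    (M : Matrix (Fin a) (Fin b) K) :
    M.rank ≤ (a - P.rank) + (b - Q.rank) + (P * M * Q).rank := by
  have h1 := rank_left P M
  have h2 := rank_left Qᵀ (P * M)ᵀ
  rw [Matrix.rank_transpose, Matrix.rank_transpose, ← Matrix.transpose_mul,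
    Matrix.rank_transpose] at h2
  have h3 : P.rank ≤ a := Matrix.rank_le_width P
  have h4 : Q.rank ≤ b := Matrix.rank_le_width Q
  omega

end sylvester

theorem map_eq_sum (M : Matrix (Fin a) (Fin b) (MvPolynomial σ F)) :
    ∃ S : Finset (σ →₀ ℕ), ∀ (K : Type _) [Field K] [Algebra F K]
      (φ : MvPolynomial σ F →ₐ[F] K), M.map φ =
      ∑ m ∈ S, φ (monomial m 1) • (coeffMat M m).map (algebraMap F K) := by
  classical
  refine ⟨Finset.univ.biUnion fun i => Finset.univ.biUnion fun j => (M i j).support, ?_⟩
  intro K _ _ φ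
  ext i j
  rw [Matrix.sum_apply]
  simp only [Matrix.smul_apply, Matrix.map_apply, coeffMat, smul_eq_mul]
  conv_lhs => rw [(M i j).as_sum, map_sum]
  have hsub : (M i j).support ⊆
      Finset.univ.biUnion fun i => Finset.univ.biUnion fun j => (M i j).support := by
    intro m hm
    simp only [Finset.mem_biUnion, Finset.mem_univ, true_and]
    exact ⟨i, j, hm⟩
  rw [← Finset.sum_subset hsub]
  · refine Finset.sum_congr rfl fun m _ => ?_
    have : monomial m (coeff m (M i j)) = (coeff m (M i j)) • (monomial m (1 : F)) := by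
      rw [smul_monomial, smul_eq_mul, mul_one]
    rw [this, map_smul, Algebra.smul_def, mul_comm]
  · intro m _ hm
    rw [notMem_support_iff.1 hm, map_zero, mul_zero]

/-- **Soundness.** -/
theorem Certifies.sound {M : Matrix (Fin a) (Fin b) (MvPolynomial σ F)} {r : ℕ}
    {P : Matrix (Fin a) (Fin a) F} {Q : Matrix (Fin b) (Fin b) F}
    {e : Matrix (Fin a) (Fin b) F} {f : Matrix (Fin b) (Fin a) F}
    (h : Certifies M r P Q e f) : symRank M ≤ r := by
  obtain ⟨h1, h2⟩ := h
  set K := FractionRing (MvPolynomial σ F) with hK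
  set φ : MvPolynomial σ F →ₐ[F] K := IsScalarTower.toAlgHom F (MvPolynomial σ F) K with hφ
  set J := jordanHull f (Set.range fun m : σ →₀ ℕ => P * coeffMat M m * Q) with hJ
  obtain ⟨S, hS⟩ := map_eq_sum M
  have h3 : symRank M = (M.map φ).rank := rfl
  rw [h3]
  have h4 : P.map (algebraMap F K) * M.map φ * Q.map (algebraMap F K) ∈ ext K J := by
    rw [hS K φ, Matrix.mul_sum, Matrix.sum_mul]
    refine Submodule.sum_mem _ fun m _ => ?_
    rw [Matrix.mul_smul, Matrix.smul_mul]
    refine Submodule.smul_mem _ _ (Submodule.subset_span ⟨P * coeffMat M m * Q, ?_, ?_⟩)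
    · exact subset_jordanHull _ _ ⟨m, rfl⟩
    · simp only [Matrix.map_mul]
  have h5 := rank_le (jordanHull_closed _ _) h1 h4
  have h6 := rank_both (P.map (algebraMap F K)) (Q.map (algebraMap F K)) (M.map φ)
  have h7 : (P.map (algebraMap F K)).rank = P.rank := by
    refine le_antisymm ?_ ?_
    · have := rank_map_le P (algebraMap F K) (RingHom.id F) Function.injective_id
      simpa using this
    · have := rank_map_le P (RingHom.id F) (algebraMap F K) (algebraMap F K).injective
      simpa using this
  have h8 : (Q.map (algebraMap F K)).rank = Q.rank := by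
    refine le_antisymm ?_ ?_
    · have := rank_map_le Q (algebraMap F K) (RingHom.id F) Function.injective_id
      simpa using this
    · have := rank_map_le Q (RingHom.id F) (algebraMap F K) (algebraMap F K).injective
      simpa using this
  rw [h7, h8] at h6
  omega

end Pool.Agent.V7H48.JC
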