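import Pool.Agent.V7H48.JC.Ord
import Pool.Agent.V7H48.JC.Alt

/-!
# Jordan certificates: the notions used in the final statement
-/

set_option autoImplicit false
set_option linter.unusedSectionVars false

namespace Pool.Agent.V7H48.JC

open Matrix Module MvPolynomial

variable {F : Type*} [Field F] {σ : Type*} {a b n : ℕ}

/-- There is a Jordan certificate for the bound `rank M ≤ r`. -/
def HasCert (M : Matrix (Fin a) (Fin b) (MvPolynomial σ F)) (r : ℕ) : Prop :=
  ∃ P Q e f, Certifies M r P Q e f

/-- There is a subspace `U` with `(b - dim U) + dim (∑ M_m U) ≤ r`: the noncommutative rank of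
`M` is at most `r`. -/
def HasSubspace (M : Matrix (Fin a) (Fin b) (MvPolynomial σ F)) (r : ℕ) : Prop :=
  ∃ U : Submodule F (Fin b → F), (b - finrank F U) + finrank F (imageSpace M U) ≤ r

/-- `(𝒜, ℬ)` is a Jordan pair and each element `x` of `𝒜` has a generalised inverse in `ℬ`. -/
def RegularPair (𝒜 : Submodule F (Matrix (Fin a) (Fin b) F))
    (ℬ : Submodule F (Matrix (Fin b) (Fin a) F)) : Prop :=
  JordanPair 𝒜 ℬ ∧ ∀ x ∈ 𝒜, ∃ y ∈ ℬ, x * y * x = x

/-- The matrix `e` has rank at most `r` and each `A_j` maps the kernel of `e` into its image. -/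
def PointCert (A : Fin n → Matrix (Fin a) (Fin b) F) (r : ℕ) (e : Matrix (Fin a) (Fin b) F) :
    Prop :=
  e.rank ≤ r ∧ ∀ j, FirstOrder e (A j)

end Pool.Agent.V7H48.JC
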