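import Pool.Agent.V7H48.JC.Defs

/-!
# Jordan certificates and the noncommutative rank
-/

set_option autoImplicit false
set_option linter.unusedSectionVars false

namespace Pool.Agent.V7H48.JC

open Matrix Module MvPolynomial

variable {F : Type*} [Field F] {σ : Type*} {a b : ℕ}

/-- The sum of the images of the space `U` under the coefficient matrices of `M`. -/
def imageSpace (M : Matrix (Fin a) (Fin b) (MvPolynomial σ F)) (U : Submodule F (Fin b → F)) :
    Submodule F (Fin a → F) :=
  ⨆ m : σ →₀ ℕ, U.map (coeffMat M m).mulVecLin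

theorem mem_imageSpace (M : Matrix (Fin a) (Fin b) (MvPolynomial σ F))
    (U : Submodule F (Fin b → F)) (m : σ →₀ ℕ) {v : Fin b → F} (hv : v ∈ U) :
    (coeffMat M m) *ᵥ v ∈ imageSpace M U :=
  le_iSup (fun m : σ →₀ ℕ => U.map (coeffMat M m).mulVecLin) m ⟨v, hv, rfl⟩

theorem toMatrix'_mulVec {n m : ℕ} (g : (Fin n → F) →ₗ[F] (Fin m → F)) (v : Fin n → F) :
    (LinearMap.toMatrix' g) *ᵥ v = g v := by
  rw [← Matrix.toLin'_apply, Matrix.toLin'_toMatrix']

theorem rank_toMatrix' {n m : ℕ} (g : (Fin n → F) →ₗ[F] (Fin m → F)) :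
    (LinearMap.toMatrix' g).rank = finrank F (LinearMap.range g) := by
  have : (LinearMap.toMatrix' g).mulVecLin = g :=
    LinearMap.ext fun v => by rw [Matrix.mulVecLin_apply, toMatrix'_mulVec]
  unfold Matrix.rank
  rw [this]

theorem eq_of_mulVec {m n : ℕ} {X Y : Matrix (Fin m) (Fin n) F}
    (h : ∀ v, X *ᵥ v = Y *ᵥ v) : X = Y :=
  Matrix.toLin'.injective (LinearMap.ext fun v => by simpa using h v)

/-- All bounds given by the noncommutative rank have Jordan certificates. -/
theorem cert_of_shrunk (M : Matrix (Fin a) (Fin b) (MvPolynomial σ F)) (r : ℕ)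
    (U : Submodule F (Fin b → F))
    (hU : (b - finrank F U) + finrank F (imageSpace M U) ≤ r) :
    ∃ P Q e f, Certifies M r P Q e f := by
  obtain ⟨U', hU'⟩ := U.exists_isCompl
  set W := imageSpace M U with hW
  obtain ⟨W', hW'⟩ := W.exists_isCompl
  set π : (Fin b → F) →ₗ[F] (Fin b → F) := U.subtype ∘ₗ U.projectionOnto U' hU' with hπ
  set ρ : (Fin a → F) →ₗ[F] (Fin a → F) := W.subtype ∘ₗ W.projectionOnto W' hW' with hρ
  have hπr : LinearMap.range π = U := by
    rw [hπ, LinearMap.range_comp_of_range_eq_top]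
    · exact U.range_subtype
    · exact Submodule.range_projectionOnto hU'
  have hρW : ∀ w ∈ W, ρ w = w := by
    intro w hw
    have := Submodule.projectionOnto_apply_left hW' ⟨w, hw⟩
    simp only [hρ, LinearMap.comp_apply]
    rw [this]
    rfl
  refine ⟨LinearMap.toMatrix' (LinearMap.id - ρ), LinearMap.toMatrix' π, 0, 0, ?_, ?_⟩
  · have h0 : ∀ m : σ →₀ ℕ, LinearMap.toMatrix' (LinearMap.id - ρ) * coeffMat M m *
        LinearMap.toMatrix' π = 0 := by
      intro m
      refine eq_of_mulVec fun v => ?_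
      rw [← Matrix.mulVec_mulVec, ← Matrix.mulVec_mulVec, toMatrix'_mulVec, toMatrix'_mulVec]
      have h1 : π v ∈ U := by
        rw [← hπr]
        exact ⟨_, rfl⟩
      have h2 := hρW _ (mem_imageSpace M U m h1)
      rw [LinearMap.sub_apply, LinearMap.id_apply, h2, sub_self, Matrix.zero_mulVec]
    have hcl : JClosed (0 : Matrix (Fin b) (Fin a) F) (⊥ : Submodule F _) := by
      intro x hx
      refine ⟨by simp, fun y _ => by simp⟩
    intro x hx
    have hx' := jordanHull_le hcl (by rintro _ ⟨m, rfl⟩; exact h0 m) hx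
    rw [(Submodule.mem_bot F).1 hx']
    simp
  · rw [rank_toMatrix', rank_toMatrix', hπr, Matrix.rank_zero, add_zero]
    have h1 := LinearMap.finrank_range_add_finrank_ker (LinearMap.id - ρ)
    rw [Module.finrank_fin_fun] at h1
    have h2 : LinearMap.ker (LinearMap.id - ρ) ≤ W := by
      intro v hv
      rw [LinearMap.mem_ker, LinearMap.sub_apply, LinearMap.id_apply, sub_eq_zero] at hv
      rw [hv]
      exact (W.projectionOnto W' hW' v).2
    have h3 := Submodule.finrank_mono h2
    omega

/-- If the noncommutative rank is equal to the rank, then every element `e` of maximal rank and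
every generalised inverse `f` of `e` give a Jordan certificate (without compression). -/
theorem cert_of_shrunk' (M : Matrix (Fin a) (Fin b) (MvPolynomial σ F))
    (e : Matrix (Fin a) (Fin b) F) (f : Matrix (Fin b) (Fin a) F)
    (he : e ∈ Submodule.span F (Set.range (coeffMat M))) (hef : e * f * e = e)
    (U : Submodule F (Fin b → F))
    (hU : (b - finrank F U) + finrank F (imageSpace M U) ≤ e.rank) :
    Certifies M e.rank 1 1 e f := by
  set W := imageSpace M U with hW
  have heU : U.map e.mulVecLin ≤ W := by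
    rintro _ ⟨v, hv, rfl⟩
    simp only [Matrix.mulVecLin_apply]
    clear hU hef
    induction he using Submodule.span_induction with
    | mem x hx =>
      obtain ⟨m, rfl⟩ := hx
      exact mem_imageSpace M U m hv
    | zero => simp
    | add x y _ _ hx hy => rw [Matrix.add_mulVec]; exact W.add_mem hx hy
    | smul c x _ hx => rw [Matrix.smul_mulVec]; exact W.smul_mem c hx
  have h1 := LinearMap.finrank_range_add_finrank_ker e.mulVecLin
  rw [Module.finrank_fin_fun] at h1
  have h2 := LinearMap.finrank_range_add_finrank_ker (e.mulVecLin.domRestrict U)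
  have h3 : LinearMap.range (e.mulVecLin.domRestrict U) = U.map e.mulVecLin := by
    ext v
    constructor
    · rintro ⟨y, rfl⟩
      exact ⟨y, y.2, rfl⟩
    · rintro ⟨y, hy, rfl⟩
      exact ⟨⟨y, hy⟩, rfl⟩
  have h4 : finrank F (LinearMap.ker (e.mulVecLin.domRestrict U)) =
      finrank F (LinearMap.ker e.mulVecLin ⊓ U : Submodule F (Fin b → F)) := by
    have : (LinearMap.ker e.mulVecLin ⊓ U : Submodule F (Fin b → F)) =
        (LinearMap.ker (e.mulVecLin.domRestrict U)).map U.subtype := by
      ext v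
      constructor
      · rintro ⟨hv1, hv2⟩
        exact ⟨⟨v, hv2⟩, hv1, rfl⟩
      · rintro ⟨y, hy, rfl⟩
        exact ⟨hy, y.2⟩
    rw [this, Submodule.finrank_map_subtype_eq]
  rw [h3, h4] at h2
  have h5 := Submodule.finrank_mono heU
  have h6 : finrank F (LinearMap.ker e.mulVecLin ⊓ U : Submodule F (Fin b → F)) ≤
    finrank F (LinearMap.ker e.mulVecLin) := Submodule.finrank_mono inf_le_left
  have h7 : e.rank = finrank F (LinearMap.range e.mulVecLin) := rfl
  have h8 : finrank F U ≤ b := by
    have := Submodule.finrank_le U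
    rwa [Module.finrank_fin_fun] at this
  have h9 : U.map e.mulVecLin = W :=
    Submodule.eq_of_le_of_finrank_le heU (by omega)
  have h10 : (LinearMap.ker e.mulVecLin ⊓ U : Submodule F (Fin b → F)) =
      LinearMap.ker e.mulVecLin := Submodule.eq_of_le_of_finrank_le inf_le_left (by omega)
  have h11 : LinearMap.ker e.mulVecLin ≤ U := by
    rw [← h10]; exact inf_le_right
  have h12 : ∀ w ∈ W, f *ᵥ w ∈ U := by
    intro w hw
    rw [← h9] at hw
    obtain ⟨u, hu, rfl⟩ := hw
    rw [Matrix.mulVecLin_apply, Matrix.mulVec_mulVec]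
    have h13 : (f * e) *ᵥ u = u - (u - (f * e) *ᵥ u) := by abel
    rw [h13]
    refine U.sub_mem hu (h11 ?_)
    rw [LinearMap.mem_ker, Matrix.mulVecLin_apply, Matrix.mulVec_sub, Matrix.mulVec_mulVec,
      ← Matrix.mul_assoc, hef, sub_self]
  -- the closed space
  let J : Submodule F (Matrix (Fin a) (Fin b) F) :=
    { carrier := {x | ∀ u ∈ U, x *ᵥ u ∈ W}
      add_mem' := fun {x y} hx hy u hu => by
        rw [Matrix.add_mulVec]; exact W.add_mem (hx u hu) (hy u hu)
      zero_mem' := fun u _ => by simp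
      smul_mem' := fun c x hx u hu => by
        rw [Matrix.smul_mulVec]; exact W.smul_mem c (hx u hu) }
  have hJ : JClosed f J := by
    intro x hx
    refine ⟨fun u hu => ?_, fun y hy u hu => ?_⟩
    · simp only [← Matrix.mulVec_mulVec]
      exact hx _ (h12 _ (hx u hu))
    · simp only [← Matrix.mulVec_mulVec]
      exact hx _ (h12 _ (hy _ (h12 _ (hx u hu))))
  refine ⟨?_, by simp⟩
  intro x hx
  have hx' : x ∈ J := by
    refine jordanHull_le hJ ?_ hx
    rintro _ ⟨m, rfl⟩ u hu
    simp only [Matrix.one_mul, Matrix.mul_one]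
    exact mem_imageSpace M U m hu
  refine eq_of_mulVec fun v' => ?_
  rw [← Matrix.mulVec_mulVec, ← Matrix.mulVec_mulVec]
  have h14 : (1 - f * e) *ᵥ v' ∈ U := by
    apply h11
    rw [LinearMap.mem_ker, Matrix.mulVecLin_apply, Matrix.mulVec_mulVec, Matrix.mul_sub,
      Matrix.mul_one, ← Matrix.mul_assoc, hef, sub_self, Matrix.zero_mulVec]
  have h15 := hx' _ h14
  rw [← h9] at h15
  obtain ⟨u, -, hu⟩ := h15
  rw [← hu, Matrix.mulVecLin_apply, Matrix.mulVec_mulVec, Matrix.sub_mul, Matrix.one_mul, hef,
    sub_self, Matrix.zero_mulVec, Matrix.zero_mulVec]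

end Pool.Agent.V7H48.JC
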