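import Pool.Agent.V7H48.JC.Pair

/-!
# Spaces of matrices over ordered fields closed under `x yᵀ x`; small evaluation points
-/

set_option autoImplicit false
set_option linter.unusedSectionVars false

namespace Pool.Agent.V7H48.JC

open Matrix Module MvPolynomial

section small

variable {F : Type*} [Field F] {a b n : ℕ}

theorem degreeOf_pencil_le (A : Fin n → Matrix (Fin a) (Fin b) F) (i : Fin n) (k : Fin a)
    (l : Fin b) : (pencil A k l).degreeOf i ≤ 1 := by
  classical
  simp only [pencil, Matrix.sum_apply, Matrix.smul_apply, Matrix.map_apply, smul_eq_mul]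
  refine (degreeOf_sum_le _ _ _).trans (Finset.sup_le fun j _ => ?_)
  refine (degreeOf_mul_le _ _ _).trans ?_
  rw [degreeOf_C, add_zero, degreeOf_X]
  split_ifs <;> simp

theorem degreeOf_det_le (A : Fin n → Matrix (Fin a) (Fin b) F) {ρ : ℕ} (r : Fin ρ → Fin a)
    (c : Fin ρ → Fin b) (i : Fin n) : (((pencil A).submatrix r c).det).degreeOf i ≤ ρ := by
  classical
  rw [Matrix.det_apply']
  refine (degreeOf_sum_le _ _ _).trans (Finset.sup_le fun τ _ => ?_)
  refine (degreeOf_mul_le _ _ _).trans ?_
  have h1 : (((Equiv.Perm.sign τ : ℤ) : MvPolynomial (Fin n) F)).degreeOf i = 0 := by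
    rw [← map_intCast (C : F →+* MvPolynomial (Fin n) F), degreeOf_C]
  rw [h1, zero_add]
  refine (degreeOf_prod_le _ _ _).trans ?_
  calc ∑ k : Fin ρ, ((pencil A).submatrix r c (τ k) k).degreeOf i
      ≤ ∑ _k : Fin ρ, 1 := Finset.sum_le_sum fun k _ => degreeOf_pencil_le A i _ _
    _ = ρ := by simp

/-- The rank over the field of rational functions is attained at a small integer point. -/
theorem exists_small [CharZero F] (A : Fin n → Matrix (Fin a) (Fin b) F) :
    ∃ c : Fin n → ℕ, (∀ i, c i ≤ min a b) ∧
      (∑ i, (c i : F) • A i).rank = symRank (pencil A) := by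
  classical
  set ρ := symRank (pencil A) with hρ
  have hρ1 : ρ ≤ min a b := le_min (Matrix.rank_le_height _) (Matrix.rank_le_width _)
  obtain ⟨r, c, h⟩ := exists_minor ((pencil A).map
    (algebraMap (MvPolynomial (Fin n) F) (FractionRing (MvPolynomial (Fin n) F)))) ρ rfl
  have h1 : (((pencil A).map (algebraMap (MvPolynomial (Fin n) F)
      (FractionRing (MvPolynomial (Fin n) F)))).submatrix r c).det =
      algebraMap _ _ ((pencil A).submatrix r c).det := by
    rw [RingHom.map_det]; rfl
  rw [h1] at h
  have hD : ((pencil A).submatrix r c).det ≠ 0 := by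
    intro h2
    rw [h2, map_zero] at h
    exact h rfl
  set S : Fin n → Finset F := fun _ => (Finset.range (min a b + 1)).image (fun k : ℕ => (k : F))
    with hS
  have hcard : ∀ i, (S i).card = min a b + 1 := fun i => by
    rw [Finset.card_image_of_injective _ Nat.cast_injective, Finset.card_range]
  by_contra hcon
  push Not at hcon
  apply hD
  refine eq_zero_of_eval_zero_at_prod_finset _ S (fun i => ?_) (fun x hx => ?_)
  · rw [hcard i]
    have := degreeOf_det_le A r c i
    omega
  · have h2 : ∀ i, ∃ k : ℕ, k ≤ min a b ∧ (k : F) = x i := by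
      intro i
      have := hx i
      simp only [hS, Finset.mem_image, Finset.mem_range] at this
      obtain ⟨k, hk, hk2⟩ := this
      exact ⟨k, by omega, hk2⟩
    choose c' hc'1 hc'2 using h2
    have h3 := hcon c' hc'1
    by_contra h4
    apply h3
    have h5 : ∑ i, (c' i : F) • A i = (pencil A).map (eval x) := by
      rw [pencil_map_eval]
      simp only [hc'2]
    rw [h5]
    refine le_antisymm (rank_map_le _ _ _ (IsFractionRing.injective _ _)) ?_
    refine le_rank_of_minor _ _ r c ?_
    have h6 : (((pencil A).map (eval x)).submatrix r c).det =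
        eval x ((pencil A).submatrix r c).det := by
      rw [RingHom.map_det]; rfl
    rw [h6]
    exact h4

end small

section ordered

variable {F : Type*} [Field F] [LinearOrder F] [IsStrictOrderedRing F] {a b n : ℕ}

theorem eq_zero_of_transpose_mul_self {M : Matrix (Fin a) (Fin b) F} (h : Mᵀ * M = 0) :
    M = 0 := by
  ext i j
  have h1 : (Mᵀ * M) j j = 0 := by rw [h]; rfl
  rw [Matrix.mul_apply] at h1
  simp only [Matrix.transpose_apply] at h1
  rw [Finset.sum_eq_zero_iff_of_nonneg (fun k _ => mul_self_nonneg _)] at h1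
  exact mul_self_eq_zero.1 (h1 i (Finset.mem_univ _))

open Polynomial in
theorem exists_poly (e : Matrix (Fin a) (Fin b) F) :
    ∃ g : F[X], g.coeff 0 ≠ 0 ∧ e * Polynomial.aeval (eᵀ * e) g = 0 := by
  set G := eᵀ * e with hG
  have hGt : Gᵀ = G := by rw [hG, Matrix.transpose_mul, Matrix.transpose_transpose]
  have hsym : ∀ g : F[X], (Polynomial.aeval G g)ᵀ = Polynomial.aeval G g := by
    intro g
    induction g using Polynomial.induction_on' with
    | add p q hp hq => rw [map_add, Matrix.transpose_add, hp, hq]
    | monomial k c =>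
      rw [Polynomial.aeval_monomial, Matrix.transpose_mul, Matrix.transpose_pow, hGt,
        Matrix.algebraMap_eq_diagonal, Matrix.diagonal_transpose]
      rw [← Matrix.algebraMap_eq_diagonal, Algebra.commutes]
  have key : ∀ N : ℕ, ∀ g : F[X], g ≠ 0 → g.natDegree ≤ N → e * Polynomial.aeval G g = 0 →
      ∃ g : F[X], g.coeff 0 ≠ 0 ∧ e * Polynomial.aeval G g = 0 := by
    intro N
    induction N with
    | zero =>
      intro g hg hd h
      refine ⟨g, ?_, h⟩
      rw [Polynomial.eq_C_of_natDegree_le_zero hd] at hg
      intro h0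
      rw [h0, map_zero] at hg
      exact hg rfl
    | succ N ih =>
      intro g hg hd h
      by_cases h0 : g.coeff 0 = 0
      · obtain ⟨g1, rfl⟩ := Polynomial.X_dvd_iff.2 h0
        have hg1 : g1 ≠ 0 := right_ne_zero_of_mul hg
        refine ih g1 hg1 ?_ ?_
        · rw [Polynomial.natDegree_X_mul hg1] at hd
          omega
        · set y := Polynomial.aeval G g1 with hy
          rw [map_mul, Polynomial.aeval_X, ← hy] at h
          -- `e G y = 0`
          have hyt : yᵀ = y := hsym g1
          have h2 : (G * y)ᵀ * (G * y) = 0 := by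
            rw [Matrix.transpose_mul, hyt, hGt]
            have : y * G * (G * y) = y * (eᵀ * (e * (G * y))) := by
              rw [hG]; simp only [Matrix.mul_assoc]
            rw [this, h, Matrix.mul_zero, Matrix.mul_zero]
          have h3 := eq_zero_of_transpose_mul_self h2
          apply eq_zero_of_transpose_mul_self
          have : (e * y)ᵀ * (e * y) = y * (G * y) := by
            rw [Matrix.transpose_mul, hyt, hG]; simp only [Matrix.mul_assoc]
          rw [this, h3, Matrix.mul_zero]
      · exact ⟨g, h0, h⟩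
  refine key _ G.charpoly (Matrix.charpoly_monic G).ne_zero le_rfl ?_
  rw [Matrix.aeval_self_charpoly, Matrix.mul_zero]

/-- The span of the `A_i` is closed under `x yᵀ x`. -/
def TClosed (A : Fin n → Matrix (Fin a) (Fin b) F) : Prop :=
  ∀ i j k, A i * (A j)ᵀ * A k + A k * (A j)ᵀ * A i ∈ spn A

theorem TClosed.tri {A : Fin n → Matrix (Fin a) (Fin b) F} (h : TClosed A)
    {x y z : Matrix (Fin a) (Fin b) F} (hx : x ∈ spn A) (hy : y ∈ spn A) (hz : z ∈ spn A) :
    x * yᵀ * z + z * yᵀ * x ∈ spn A := by
  have hadd : ∀ {u v : Matrix (Fin a) (Fin b) F}, u ∈ spn A → v ∈ spn A → u + v ∈ spn A :=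
    fun hu hv => (spn A).add_mem hu hv
  have hsmul : ∀ (c : F) {u : Matrix (Fin a) (Fin b) F}, u ∈ spn A → c • u ∈ spn A :=
    fun c _ hu => (spn A).smul_mem c hu
  unfold spn at hx hy hz
  induction hx using Submodule.span_induction with
  | mem x hx =>
    obtain ⟨i, rfl⟩ := hx
    induction hy using Submodule.span_induction with
    | mem y hy =>
      obtain ⟨j, rfl⟩ := hy
      induction hz using Submodule.span_induction with
      | mem z hz =>
        obtain ⟨k, rfl⟩ := hz
        exact h i j k
      | zero => simp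
      | add z w _ _ hz hw =>
        convert hadd hz hw using 1
        simp only [Matrix.add_mul, Matrix.mul_add]
        abel
      | smul c z _ hz =>
        convert hsmul c hz using 1
        simp only [Matrix.smul_mul, Matrix.mul_smul, smul_add]
    | zero => simp
    | add y w _ _ hy hw =>
      convert hadd hy hw using 1
      simp only [Matrix.transpose_add, Matrix.add_mul, Matrix.mul_add]
      abel
    | smul c y _ hy =>
      convert hsmul c hy using 1
      simp only [Matrix.transpose_smul, Matrix.smul_mul, Matrix.mul_smul, smul_add]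
  | zero => simp
  | add x w _ _ hx hw =>
    convert hadd hx hw using 1
    simp only [Matrix.add_mul, Matrix.mul_add]
    abel
  | smul c x _ hx =>
    convert hsmul c hx using 1
    simp only [Matrix.smul_mul, Matrix.mul_smul, smul_add]

theorem half_mem {S : Submodule F (Matrix (Fin a) (Fin b) F)} {x : Matrix (Fin a) (Fin b) F}
    (h : x + x ∈ S) : x ∈ S := by
  have h1 : x = (2⁻¹ : F) • (x + x) := by
    rw [← two_smul F x, smul_smul, inv_mul_cancel₀ (two_ne_zero), one_smul]
  rw [h1]
  exact S.smul_mem _ h

/-- the space of the transposes -/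
def tspace (S : Submodule F (Matrix (Fin a) (Fin b) F)) : Submodule F (Matrix (Fin b) (Fin a) F) :=
  S.map (Matrix.transposeLinearEquiv (Fin a) (Fin b) F F).toLinearMap

theorem mem_tspace {S : Submodule F (Matrix (Fin a) (Fin b) F)} {y : Matrix (Fin b) (Fin a) F} :
    y ∈ tspace S ↔ yᵀ ∈ S := by
  constructor
  · rintro ⟨x, hx, rfl⟩
    exact hx
  · intro h
    exact ⟨yᵀ, h, rfl⟩

theorem TClosed.pair {A : Fin n → Matrix (Fin a) (Fin b) F} (h : TClosed A) :
    JordanPair (spn A) (tspace (spn A)) := by
  intro x hx y hy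
  rw [mem_tspace] at hy ⊢
  constructor
  · have h1 := h.tri hx hy hx
    rw [Matrix.transpose_transpose] at h1
    exact half_mem h1
  · have h1 := half_mem (h.tri hy hx hy)
    convert h1 using 1
    rw [Matrix.transpose_mul, Matrix.transpose_mul, Matrix.mul_assoc]

theorem TClosed.regular {A : Fin n → Matrix (Fin a) (Fin b) F} (h : TClosed A)
    {e : Matrix (Fin a) (Fin b) F} (he : e ∈ spn A) :
    ∃ y ∈ tspace (spn A), e * y * e = e := by
  obtain ⟨g, hg0, hg⟩ := exists_poly e
  set G := eᵀ * e with hG
  have hGt : Gᵀ = G := by rw [hG, Matrix.transpose_mul, Matrix.transpose_transpose]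
  -- `e G^k` is in the space
  have hpow : ∀ k : ℕ, e * G ^ k ∈ spn A := by
    intro k
    induction k with
    | zero => simpa using he
    | succ k ih =>
      apply half_mem
      have h1 := h.tri he he ih
      convert h1 using 1
      rw [pow_succ', hG]
      congr 1
      · simp only [Matrix.mul_assoc]
      · have h2 : (eᵀ * e) * (eᵀ * e) ^ k = (eᵀ * e) ^ k * (eᵀ * e) := (pow_succ' _ _).symm.trans
          (pow_succ _ _)
        rw [h2]; simp only [Matrix.mul_assoc]
  have hpoly : ∀ p : Polynomial F, e * Polynomial.aeval G p ∈ spn A := by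
    intro p
    induction p using Polynomial.induction_on' with
    | add p q hp hq => rw [map_add, Matrix.mul_add]; exact (spn A).add_mem hp hq
    | monomial k c =>
      rw [Polynomial.aeval_monomial, ← Algebra.smul_def, Matrix.mul_smul]
      exact (spn A).smul_mem c (hpow k)
  have hsym : ∀ p : Polynomial F, (Polynomial.aeval G p)ᵀ = Polynomial.aeval G p := by
    intro p
    induction p using Polynomial.induction_on' with
    | add p q hp hq => rw [map_add, Matrix.transpose_add, hp, hq]
    | monomial k c =>
      rw [Polynomial.aeval_monomial, ← Algebra.smul_def, Matrix.transpose_smul,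
        Matrix.transpose_pow, hGt]
  -- `g = c + X g'`
  set c := g.coeff 0 with hc
  have hgd : g = Polynomial.C c + Polynomial.X * g.divX := by
    rw [add_comm, mul_comm]
    exact (Polynomial.divX_mul_X_add g).symm
  set d : Matrix (Fin b) (Fin b) F := Polynomial.aeval G (-Polynomial.C c⁻¹ * g.divX) with hd
  refine ⟨d * eᵀ, ?_, ?_⟩
  · rw [mem_tspace, Matrix.transpose_mul, Matrix.transpose_transpose, hd, hsym]
    exact hpoly _
  · have h1 : e * (d * eᵀ) * e = e * (d * G) := by
      rw [hG]; simp only [Matrix.mul_assoc]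
    rw [h1]
    have h2 : d * G = Polynomial.aeval G (-Polynomial.C c⁻¹ * g.divX * Polynomial.X) := by
      rw [map_mul (Polynomial.aeval G) _ Polynomial.X, Polynomial.aeval_X]
    have h3 : -Polynomial.C c⁻¹ * g.divX * Polynomial.X =
        1 - Polynomial.C c⁻¹ * g := by
      conv_rhs => rw [hgd]
      rw [mul_add, ← Polynomial.C_mul, inv_mul_cancel₀ hg0, Polynomial.C_1]
      ring
    rw [h2, h3, map_sub, map_one, Matrix.mul_sub, Matrix.mul_one, map_mul, Polynomial.aeval_C,
      ← Algebra.smul_def, Matrix.mul_smul, hg, smul_zero, sub_zero]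

/-- **Spaces over ordered fields closed under `x yᵀ x`.** -/
theorem TClosed.main {A : Fin n → Matrix (Fin a) (Fin b) F} (h : TClosed A) (r : ℕ) :
    symRank (pencil A) ≤ r ↔ ∃ c : Fin n → ℕ, (∀ i, c i ≤ min a b) ∧
      (∑ i, (c i : F) • A i).rank ≤ r ∧ ∀ j, FirstOrder (∑ i, (c i : F) • A i) (A j) := by
  have h1 := regular_pair h.pair fun x hx => h.regular hx
  constructor
  · intro hr
    obtain ⟨c, hc1, hc2⟩ := exists_small A
    have hmem : ∑ i, (c i : F) • A i ∈ spn A :=
      Submodule.sum_mem _ fun i _ => Submodule.smul_mem _ _ (Submodule.subset_span ⟨i, rfl⟩)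
    exact ⟨c, hc1, hc2.trans_le hr, (h1.2.1 _ hmem).1 hc2⟩
  · rintro ⟨c, -, hc, hf⟩
    have hmem : ∑ i, (c i : F) • A i ∈ spn A :=
      Submodule.sum_mem _ fun i _ => Submodule.smul_mem _ _ (Submodule.subset_span ⟨i, rfl⟩)
    rw [← (h1.2.1 _ hmem).2 hf]
    exact hc

end ordered

end Pool.Agent.V7H48.JC
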